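import Pool.Agent.Helper67.KPG.St3

/-!
# KPG, module OMJ: the Pfaffian of the symplectic form in the chart
-/

set_option autoImplicit false

namespace Pool.Agent.Helper58.KPG

open Pool.Agent.Helper67.NO Pool.Agent.Helper52.KP Pool.Agent.Helper67.KPG

universe u

/-- the restriction of a polynomial to a scaling line -/
private noncomputable def lin {m : ℕ} (w : Fin m → ℕ) (J : MvPolynomial (Fin m) ℂ)
    (z : Fin m → ℂ) : Polynomial ℂ :=
  MvPolynomial.aeval (fun j => (Polynomial.X : Polynomial ℂ) ^ w j * Polynomial.C (z j)) J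

private lemma lin_eval {m : ℕ} (w : Fin m → ℕ) (J : MvPolynomial (Fin m) ℂ) (z : Fin m → ℂ)
    (c : ℂ) : (lin w J z).eval c = ev J (scl w c z) := by
  have h1 : (Polynomial.aeval c : Polynomial ℂ →ₐ[ℂ] ℂ).comp
      (MvPolynomial.aeval (fun j => (Polynomial.X : Polynomial ℂ) ^ w j * Polynomial.C (z j))) =
      MvPolynomial.aeval (fun j => c ^ w j * z j) := by
    apply MvPolynomial.algHom_ext
    intro j
    simp
    ring
  have h2 := DFunLike.congr_fun h1 J
  rw [AlgHom.comp_apply, Polynomial.coe_aeval_eq_eval] at h2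
  unfold lin
  rw [h2]
  rfl

private lemma om_skew {g : Type u} [LieRing g] [LieAlgebra ℂ g] [FiniteDimensional ℂ g]
    {m : ℕ} (N : ℕ) (w : Fin m → ℕ) (E : Fin m → g) (z : Fin m → ℂ) (i j : Fin m) :
    om N w E z j i = -om N w E z i j := by
  unfold om
  by_cases hi : w i = 0
  · by_cases hj : w j = 0
    · simp only [hi, hj, if_true]
      rw [← lie_skew, map_neg]
    · simp only [hi, hj, if_true, if_false]
  · by_cases hj : w j = 0
    · simp only [hi, hj, if_true, if_false, neg_neg]
    · simp only [hi, hj, if_false, neg_zero]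

private lemma om_scl {g : Type u} [LieRing g] [LieAlgebra ℂ g] [FiniteDimensional ℂ g]
    {m : ℕ} (N : ℕ) (w : Fin m → ℕ) (E : Fin m → g) (z : Fin m → ℂ) (c : ℂ)
    (hu : uu w E (scl w c z) = uu w E z) (hy : yy w E (scl w c z) = c • yy w E z) :
    Matrix.diagonal (fun i => if w i = 0 then 1 else c) * om N w E (scl w c z) =
      om N w E z * Matrix.diagonal (fun j => if w j = 0 then c else 1) := by
  ext i j
  rw [Matrix.diagonal_mul, Matrix.mul_diagonal]
  unfold om
  rw [hu, hy]
  by_cases hi : w i = 0
  · by_cases hj : w j = 0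
    · simp only [hi, hj, if_true, map_smul, LinearMap.smul_apply, smul_eq_mul]
      ring
    · simp only [hi, hj, if_true, if_false]
      ring
  · by_cases hj : w j = 0
    · simp only [hi, hj, if_true, if_false]
      ring
    · simp only [hi, hj, if_false]
      ring

theorem hOMJ (hPFA : StPFA) (hPHI : StPHI.{u}) : StOMJ.{u} := by
  intro g _ _ _ e h f N pr hSl m w E hBs hex
  obtain ⟨-, -, -, -, hscl, -, hom⟩ := hPHI g e h f N pr hSl m w E hBs
  choose M hM using hom
  have hMskew : ∀ i j, M j i = -M i j := by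
    intro i j
    apply MvPolynomial.funext
    intro z
    have h1 := hM j i z
    have h2 := hM i j z
    simp only at h1 h2
    rw [map_neg]
    have h3 := om_skew N w E z i j
    rw [h1, h2] at h3
    exact h3
  obtain ⟨J, hJ⟩ := hPFA m m M hMskew
  have hdet : ∀ z, (om N w E z).det = ev J z ^ 2 := by
    intro z
    have h1 : om N w E z = (MvPolynomial.eval z).mapMatrix M := by
      ext i j
      exact hM i j z
    have h2 : (om N w E z).det = MvPolynomial.eval z (Matrix.det M) := by
      rw [h1, ← RingHom.map_det]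
    rw [h2, show Matrix.det M = J ^ 2 from hJ, map_pow]
  -- numbers of indices
  set q : ℕ := (Finset.univ.filter fun i : Fin m => ¬ w i = 0).card with hq
  set p : ℕ := (Finset.univ.filter fun i : Fin m => w i = 0).card with hp
  have hpq : p + q = m := by
    rw [hp, hq, Finset.card_filter_add_card_filter_not, Finset.card_univ, Fintype.card_fin]
  have hsum : ∑ j, w j = q := by
    rw [hq, Finset.card_filter]
    refine Finset.sum_congr rfl fun j _ => ?_
    rcases hBs.w01 j with h0 | h1
    · simp [h0]
    · simp [h1]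
  have key : ∀ (c : ℂ) z, c ^ q * ev J (scl w c z) ^ 2 = c ^ p * ev J z ^ 2 := by
    intro c z
    have h1 := congrArg Matrix.det (om_scl N w E z c (hscl c z).1 (hscl c z).2)
    rw [Matrix.det_mul, Matrix.det_mul, Matrix.det_diagonal, Matrix.det_diagonal, hdet, hdet] at h1
    have e1 : (∏ i : Fin m, if w i = 0 then (1 : ℂ) else c) = c ^ q := by
      rw [Finset.prod_ite, Finset.prod_const_one, Finset.prod_const, one_mul]
    have e2 : (∏ i : Fin m, if w i = 0 then c else (1 : ℂ)) = c ^ p := by
      rw [Finset.prod_ite, Finset.prod_const_one, Finset.prod_const, mul_one]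
    rw [e1, e2] at h1
    rw [h1]
    ring
  have hpoly : ∀ z, (Polynomial.X : Polynomial ℂ) ^ q * lin w J z ^ 2 =
      Polynomial.X ^ p * Polynomial.C (ev J z) ^ 2 := by
    intro z
    apply Polynomial.funext
    intro c
    simp only [Polynomial.eval_mul, Polynomial.eval_pow, Polynomial.eval_X, Polynomial.eval_C,
      lin_eval]
    exact key c z
  obtain ⟨z₀, hz₀⟩ := hex
  have ha : ev J z₀ ≠ 0 := by
    intro h0
    rw [hdet, h0] at hz₀
    exact hz₀ (by ring)
  have hX : ∀ k : ℕ, (Polynomial.X : Polynomial ℂ) ^ k ≠ 0 := fun k =>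
    pow_ne_zero k Polynomial.X_ne_zero
  have hC0 : (Polynomial.C (ev J z₀) : Polynomial ℂ) ≠ 0 := Polynomial.C_ne_zero.mpr ha
  have hlin0 : lin w J z₀ ≠ 0 := by
    intro h0
    have h1 := hpoly z₀
    rw [h0] at h1
    have : (Polynomial.X : Polynomial ℂ) ^ p * Polynomial.C (ev J z₀) ^ 2 = 0 := by
      rw [← h1]; ring
    exact (mul_ne_zero (hX p) (pow_ne_zero 2 hC0)) this
  have hdeg : q + 2 * (lin w J z₀).natDegree = p := by
    have h1 := congrArg Polynomial.natDegree (hpoly z₀)
    rw [Polynomial.natDegree_mul (hX q) (pow_ne_zero 2 hlin0),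
      Polynomial.natDegree_mul (hX p) (pow_ne_zero 2 hC0), Polynomial.natDegree_pow,
      Polynomial.natDegree_pow, Polynomial.natDegree_pow, Polynomial.natDegree_pow,
      Polynomial.natDegree_X, Polynomial.natDegree_C] at h1
    omega
  refine ⟨J, (lin w J z₀).natDegree, hdet, ?_, ?_⟩
  · intro c z
    set d := (lin w J z₀).natDegree with hd
    have h1 : lin w J z ^ 2 = (Polynomial.X ^ d * Polynomial.C (ev J z)) ^ 2 := by
      have h2 := hpoly z
      have h3 : (Polynomial.X : Polynomial ℂ) ^ q * lin w J z ^ 2 =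
          Polynomial.X ^ q * (Polynomial.X ^ d * Polynomial.C (ev J z)) ^ 2 := by
        rw [h2, ← hdeg]
        ring
      exact mul_left_cancel₀ (hX q) h3
    rcases sq_eq_sq_iff_eq_or_eq_neg.mp h1 with h4 | h4
    · have h5 := congrArg (Polynomial.eval c) h4
      rw [lin_eval] at h5
      rw [h5]
      simp
      ring
    · have h5 := congrArg (Polynomial.eval (1 : ℂ)) h4
      rw [lin_eval] at h5
      have h6 : scl w 1 z = z := by
        funext j
        simp [scl]
      rw [h6] at h5
      simp only [Polynomial.eval_neg, Polynomial.eval_mul, Polynomial.eval_pow,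
        Polynomial.eval_X, Polynomial.eval_C, one_pow, one_mul] at h5
      have h7 : ev J z = 0 := by
        have : (2 : ℂ) * ev J z = 0 := by linear_combination h5
        exact (mul_eq_zero.mp this).resolve_left two_ne_zero
      have h8 := congrArg (Polynomial.eval c) h4
      rw [lin_eval] at h8
      rw [h8, h7]
      simp
  · rw [hsum]
    omega

end Pool.Agent.Helper58.KPG
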